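import Pool.Agent.H72.Dc.Pow

/-! The determinantal complexity, exact or approximative, of the power sum
`X_1 ^ d + ... + X_N ^ d` is at least `(N - 1) (d - 1) / 22`, over every field of characteristic
zero, if `d - 1 ≤ 2 ^ (N - 1)`. -/

namespace Pool.Agent.Results.MP_9ce8c8_lc.PowerSumDeterminant

open MvPolynomial Pool.Agent.H61.BD

universe u

theorem result {N d : ℕ} (hN : 2 ≤ N) (hd : d - 1 ≤ 2 ^ (N - 1)) (k : Type u) [Field k]
    [CharZero k] (s : ℕ)
    (hs : DetLE (psum (Fin N) k d) s ∨ BorderDetLE (psum (Fin N) k d) s) :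
    (N - 1) * (d - 1) ≤ 22 * s :=
  Pool.Agent.H72.Dc.pow_final hN hd k s hs

end Pool.Agent.Results.MP_9ce8c8_lc.PowerSumDeterminant
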